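import Pool.Agent.N396.ZK.Main2

/-!
# An upper bound for the spectral radius of `K_{s,t}`-free graphs from Charlier polynomials

Here `s ≥ t`, so that `t` is the smaller side. The bound known so far for `s ≥ t ≥ 4` is
`μ_{s,t}(n) ≤ ((s - t + 1)^{1/t} + o(1)) n^{1 - 1/t}`. The bound below contains it (`r = 1`) and
improves it for all `t ≥ 4` and `s ≥ t + 2`: for `r = 2` it says that `s - t + 1` can be replaced by
any number larger than `s - t + 3 - √(s - t + 3)`.
-/

set_option autoImplicit false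

namespace Pool.Agent.Results.MP_010c11_co.CharlierBound

open Finset

/-- The monic Charlier polynomial of degree `r` with parameter `c`,
`∑_{i=0}^{r} (-1)^{r-i} (r choose i) c^{r-i} x (x-1) ⋯ (x-i+1)`. These polynomials are orthogonal
with respect to the Poisson distribution with mean `c`. -/
noncomputable def charlier (c : ℝ) (r : ℕ) (x : ℝ) : ℝ :=
  ∑ i ∈ range (r + 1), (-1) ^ (r - i) * (r.choose i : ℝ) * c ^ (r - i) * ∏ l ∈ range i, (x - l)

open Classical in
/-- Let `r ≥ 1`, `t ≥ 3`, `2 r ≤ t ≤ s`. If the Charlier polynomial of degree `r` with parameter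
`c > 0` has a real zero larger than `s - t + 2 r - 1`, then for all large `n` every eigenvalue `ρ` of
the adjacency matrix of every `K_{s,t}`-free graph with `n` vertices satisfies
`ρ ≤ c^{1/t} * n^{1 - 1/t}`. -/
theorem result : ∀ (r s t : ℕ) (c h : ℝ), 1 ≤ r → 3 ≤ t → 2 * r ≤ t → t ≤ s → 0 < c →
    (s : ℝ) - t + 2 * r - 1 < h → charlier c r h = 0 →
    ∃ n₀ : ℕ, ∀ n : ℕ, n₀ ≤ n → ∀ G : SimpleGraph (Fin n),
      (completeBipartiteGraph (Fin s) (Fin t)).Free G →
      ∀ ρ : ℝ, Module.End.HasEigenvalue (Matrix.toLin' (G.adjMatrix ℝ)) ρ →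
      ρ ≤ c ^ (1 / (t : ℝ)) * (n : ℝ) ^ (1 - 1 / (t : ℝ)) := by
  intro r s t c h hr ht3 ht hst hc hh hz
  obtain ⟨n₀, hn₀⟩ := Pool.Agent.N396.ZK.spec_bound r t s c h hr ht ht3 hst hc hh hz
  refine ⟨n₀, fun n hn G hG ρ hρ => ?_⟩
  obtain ⟨x, hx⟩ := hρ.exists_hasEigenvector
  have hG' : (completeBipartiteGraph (Fin t) (Fin s)).Free G := by
    intro h1
    apply hG
    exact (SimpleGraph.Iso.isContained
      (⟨Equiv.sumComm _ _, by rintro (a | a) (b | b) <;> simp⟩ :
        completeBipartiteGraph (Fin s) (Fin t) ≃g completeBipartiteGraph (Fin t) (Fin s))).trans h1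
  refine hn₀ n hn G hG' ρ x hx.2 fun u => ?_
  have h2 := congrFun hx.apply_eq_smul u
  rw [Matrix.toLin'_apply] at h2
  have h3 : (G.adjMatrix ℝ).mulVec x u = ∑ v, Pool.Agent.N396.ZK.ad G u v * x v := by
    simp only [Matrix.mulVec, dotProduct, SimpleGraph.adjMatrix_apply, Pool.Agent.N396.ZK.ad]
  rw [← h3, h2]
  simp

end Pool.Agent.Results.MP_010c11_co.CharlierBound
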